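import Pool.Agent.helper27.PC2.Stmt2
import Pool.Agent.helper26.PC.GEN

/-!
# PC project, module GEND: the simple reflections generate `W(D_n)`
-/

namespace Pool.Agent.helper27.PC

open Module Polynomial

theorem GEND_sign (n : ℕ) (l : List (Fin n)) :
    Equiv.Perm.sign (((l.map (gen n)).prod : W n) : Equiv.Perm (Fin n × Bool)) =
      (-1) ^ ((l.map Fin.val).count 0) := by
  induction l with
  | nil => simp
  | cons i l ih =>
    rw [List.map_cons, List.prod_cons, Subgroup.coe_mul, Equiv.Perm.sign_mul, ih, List.map_cons,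
      List.count_cons]
    by_cases hi : i.val = 0
    · have h1 : Equiv.Perm.sign (gen n i : Equiv.Perm (Fin n × Bool)) = -1 := by
        show Equiv.Perm.sign (genPerm n i) = -1
        unfold genPerm
        rw [if_pos hi, Equiv.Perm.sign_swap]
        simp [Prod.ext_iff]
      rw [h1, hi]
      simp [pow_succ]
    · rw [sign_gen_succ i hi]
      simp [hi]

theorem GEND_fin (n : ℕ) (l : List ℕ) :
    ∃ l' : List (Fin n), (l'.map (genD n)).prod = (l.map (gD n)).prod := by
  induction l with
  | nil => exact ⟨[], rfl⟩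
  | cons i l ih =>
    obtain ⟨l', h⟩ := ih
    by_cases hi : i < n
    · refine ⟨⟨i, hi⟩ :: l', ?_⟩
      rw [List.map_cons, List.map_cons, List.prod_cons, List.prod_cons, h]
      unfold gD
      rw [dif_pos hi]
    · refine ⟨l', ?_⟩
      rw [List.map_cons, List.prod_cons, h]
      unfold gD
      rw [dif_neg hi, one_mul]

theorem GEND_g (n : ℕ) (l : List (Fin n)) :
    ((l.map Fin.val).map (g n)).prod = (l.map (gen n)).prod := by
  rw [List.map_map]
  congr 1
  apply List.map_congr_left
  intro i _
  simp [g]

/-- the simple reflections generate `W(D_n)` -/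
theorem GEND (hDW : DW_stmt) : GEND_stmt := by
  intro n w
  obtain ⟨l, hl⟩ := GEN n (w : W n)
  have hs := GEND_sign n l
  rw [hl, mem_WD.mp w.2] at hs
  have hev : ¬ Odd ((l.map Fin.val).count 0) := by
    intro ho
    rw [ho.neg_one_pow] at hs
    exact absurd hs (by decide)
  have h := hDW n (l.map Fin.val) (by
    intro i hi
    obtain ⟨j, _, rfl⟩ := List.mem_map.mp hi
    exact j.isLt) false
  rw [GEND_g, hl] at h
  simp only [Bool.false_xor, decide_eq_true_eq, if_neg hev, Bool.false_eq_true, if_false, one_mul,
    mul_one] at h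
  obtain ⟨l', hl'⟩ := GEND_fin n (dword false (l.map Fin.val))
  exact ⟨l', by rw [hl']; exact Subtype.ext h⟩

end Pool.Agent.helper27.PC
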